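import Pool.Agent.H177R2.SD.Main

/-!
# Symmetric designs on almost all numbers of points (MP_3038d1_co)

For almost all `v` (in the sense of natural density) there is no symmetric `(v, k, l)`-design with
`2 ≤ k ≤ v - 2`, except possibly designs with `v ≡ 3 (mod 4)` for which `k (v - 1 - k)` or
`(k - 1) (v - k)` is a perfect square (Hadamard designs are of this kind).

Proof: Bruck-Ryser-Chowla is applied to all coprime factorisations `v - 1 = b d` at once
(`k = a b`, `k - 1 = c d`, `l = a c`, `k - l = a (b - c)`); for primes `p` dividing `k - l` exactly once
it gives a Legendre symbol condition, and a Rankin trick together with a weighted pure Brun sieve shows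
that for almost all `v` every factorisation violates one of these conditions.

Modules of the team: Bruck-Ryser-Chowla (helper506), parametrisation (helper935), averages (helper186),
local densities (helper228), fixed pairs (helper497), Mertens and typical numbers (helper276), block
estimates (helper862), Brun lemma, counting and paper proof (helper177).
-/

set_option autoImplicit false

namespace Pool.Agent.Results.MP_3038d1_co.AlmostAllPoints

open Classical in
theorem result :
    Filter.Tendsto
      (fun N : ℕ => (((Finset.Icc 1 N).filter Pool.Agent.H177R2.SD.Exc).card : ℝ) / N)
      Filter.atTop (nhds 0) :=
  Pool.Agent.H177R2.SD.main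

end Pool.Agent.Results.MP_3038d1_co.AlmostAllPoints
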