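import Pool.Agent.H114R2.Design
import Pool.Agent.H816R2.GS223
import Pool.Agent.H816R2.GS311
import Pool.Agent.H816R2.GS487

/-!
Symmetric `(4u - 1, 2u - 1, u - 1)`-designs for `u = 2 ^ s * q`, `q = 223, 311, 487`.
-/

namespace Pool.Agent.Results.MP_3038d1_co.HadamardDesigns

open Pool.Agent.H816R2.GS

/-- `B` lists the `v` blocks of a symmetric `(v, k, l)`-design on the point set `Fin v`:
`k < v`, `0 < l`, every block has `k` points, every point is in `k` blocks, any two distinct points
are in exactly `l` common blocks (and any two distinct blocks have exactly `l` common points). -/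
def IsSymmetricDesign (v k l : ℕ) (B : Fin v → Finset (Fin v)) : Prop :=
  k < v ∧ 0 < l ∧ (∀ i, (B i).card = k) ∧
  (∀ x, (Finset.univ.filter (fun i => x ∈ B i)).card = k) ∧
  (∀ x y, x ≠ y → (Finset.univ.filter (fun i => x ∈ B i ∧ y ∈ B i)).card = l) ∧
  (∀ i j, i ≠ j → (B i ∩ B j).card = l)

theorem result : ∀ q ∈ ([223, 311, 487] : List ℕ), ∀ s u : ℕ, u = 2 ^ s * q →
    ∃ B, IsSymmetricDesign (4 * u - 1) (2 * u - 1) (u - 1) B := by
  intro q hq s u hu
  have h : HasHadamard (4 * u) := by
    have h0 : HasHadamard (2 ^ (s + 2) * q) := by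
      simp only [List.mem_cons, List.not_mem_nil, or_false] at hq
      rcases hq with rfl | rfl | rfl
      · exact hasHadamard_pow hadamard223 (s + 2) (by omega)
      · exact hasHadamard_pow hadamard311 (s + 2) (by omega)
      · exact hasHadamard_pow hadamard487 (s + 2) (by omega)
    have h1 : 2 ^ (s + 2) * q = 4 * u := by rw [hu]; ring
    rwa [h1] at h0
  have h5 : 1 < u := by
    have h2 : 0 < 2 ^ s := by positivity
    have h3 : 2 ≤ q := by
      simp only [List.mem_cons, List.not_mem_nil, or_false] at hq
      rcases hq with rfl | rfl | rfl <;> norm_num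
    rw [hu]
    nlinarith
  exact Pool.Agent.H114R2.hadDesign_of_had h5 h

end Pool.Agent.Results.MP_3038d1_co.HadamardDesigns
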