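import Pool.Agent.H114R2.Design
import Pool.Agent.H108R3.Had.Main

/-!
# New infinite families of symmetric designs

There is a constant `C` such that for every integer `q ≥ 3` and every `s ≥ C * ℓ * (1 + log ℓ) ^ 2`,
`ℓ = 1 + log log q`, with `u = 2 ^ s * q`, there are a symmetric `(4u², 2u² - u, u² - u)`-design
(Menon parameters) and a symmetric `(4u - 1, 2u - 1, u - 1)`-design (Hadamard parameters).
-/

namespace Pool.Agent.Results.MP_3038d1_co.MenonHadamardLogLog

/-- `B` lists the `v` blocks of a symmetric `(v, k, l)`-design on the point set `Fin v`: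
`k < v`, `0 < l`, every block has `k` points, every point is in `k` blocks, any two distinct points
are in exactly `l` common blocks (and any two distinct blocks have exactly `l` common points). -/
def IsSymmetricDesign (v k l : ℕ) (B : Fin v → Finset (Fin v)) : Prop :=
  k < v ∧ 0 < l ∧ (∀ i, (B i).card = k) ∧
  (∀ x, (Finset.univ.filter (fun i => x ∈ B i)).card = k) ∧
  (∀ x y, x ≠ y → (Finset.univ.filter (fun i => x ∈ B i ∧ y ∈ B i)).card = l) ∧
  (∀ i j, i ≠ j → (B i ∩ B j).card = l)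

theorem result : ∃ C : ℝ, ∀ q s u : ℕ, 3 ≤ q →
    C * (1 + Real.log (Real.log q)) * (1 + Real.log (1 + Real.log (Real.log q))) ^ 2 ≤ s →
    u = 2 ^ s * q →
    (∃ B, IsSymmetricDesign (4 * u ^ 2) (2 * u ^ 2 - u) (u ^ 2 - u) B) ∧
    (∃ B, IsSymmetricDesign (4 * u - 1) (2 * u - 1) (u - 1) B) := by
  obtain ⟨C, _, hC⟩ := Pool.Agent.H108R3.Had.had_loglog
  refine ⟨C, fun q s u hq hs hu => ?_⟩
  subst hu
  have h1 : Pool.Agent.H114R2.HasHad (2 ^ (s + 1) * q) :=
    hC q (s + 1) hq (hs.trans (by push_cast; linarith))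
  have h2 := Pool.Agent.H114R2.hasHad_double h1
  have h3 : 2 ^ (s + 1) * q = 2 * (2 ^ s * q) := by ring
  have h4 : 2 * (2 ^ (s + 1) * q) = 4 * (2 ^ s * q) := by ring
  have h5 : 1 < 2 ^ s * q := by
    have : 0 < 2 ^ s := by positivity
    nlinarith
  rw [h4] at h2
  change Pool.Agent.H114R2.HasHad (2 ^ (s + 1) * q) at h1
  rw [h3] at h1
  exact ⟨Pool.Agent.H114R2.menon_of_had h5 h1, Pool.Agent.H114R2.hadDesign_of_had h5 h2⟩

end Pool.Agent.Results.MP_3038d1_co.MenonHadamardLogLog
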