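import Pool.Agent.H177R2.SD.Final2

/-!
# Almost all admissible parameter triples are not realised (MP_3038d1_co)

`Admissible N`: triples `(v, k, l)` of positive integers, `k < v ≤ N`, `l (v - 1) = k (k - 1)`.
`Realised N`: triples with `v ≤ N` for which a symmetric `(v, k, l)`-design exists.

The proportion of realised triples among the admissible ones is `O((log log N)² / log N)`: by
Bruck-Ryser-Chowla applied in local form (two Legendre symbol conditions for the primes dividing
`k - l = a (b - c)` exactly once, where `k = a b`, `k - 1 = c d`, `v - 1 = b d`) and a weighted pure Brun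
sieve over dyadic blocks of `d`, at most `O(N (log log N)²)` triples survive, while there are at least
`c N log N` admissible ones.
-/

set_option autoImplicit false

namespace Pool.Agent.Results.MP_3038d1_co.RealisedTriples

theorem result : ∃ C : ℝ, 0 < C ∧ ∀ N : ℕ, 16 ≤ N →
    ((Pool.Agent.H177R2.SD.Realised N).card : ℝ) ≤
      C * ((Real.log (Real.log N)) ^ 2 / Real.log N) *
        ((Pool.Agent.H177R2.SD.Admissible N).card : ℝ) :=
  Pool.Agent.H177R2.SD.proportion

end Pool.Agent.Results.MP_3038d1_co.RealisedTriples
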